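import Pool.Agent.Helper68_Leo4.Basic

/-! # Squad leo4, module QNM: normalisation of a quadruple -/

set_option autoImplicit false

namespace Pool.Agent.Leo4.H83

open Pool.Agent.Leo4

/-! ### residues modulo 2 -/

theorem two_dvd_iff (x : O) : (2 : O) ∣ x ↔ (2 : ℤ) ∣ x.re ∧ (2 : ℤ) ∣ x.im := by
  constructor
  · rintro ⟨y, rfl⟩
    refine ⟨⟨y.re, ?_⟩, ⟨y.im, ?_⟩⟩
    · simp [two_mul]
    · simp [two_mul]
  · rintro ⟨⟨r, hr⟩, ⟨i, hi⟩⟩
    refine ⟨⟨r, i⟩, ?_⟩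
    ext
    · simp [two_mul, hr]
    · simp [two_mul, hi]

theorem cube_mod_two {y : O} (h : ¬ (2 : O) ∣ y) : (2 : O) ∣ y ^ 3 - 1 := by
  have hre : (y ^ 3 - 1).re = y.re ^ 3 + 3 * y.re * y.im ^ 2 + y.im ^ 3 - 1 := by
    rw [pow_succ, pow_two]
    simp only [QuadraticAlgebra.re_sub, QuadraticAlgebra.re_mul, QuadraticAlgebra.im_mul,
      QuadraticAlgebra.re_one]
    ring
  have him : (y ^ 3 - 1).im = 3 * y.re ^ 2 * y.im + 3 * y.re * y.im ^ 2 + 2 * y.im ^ 3 := by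
    rw [pow_succ, pow_two]
    simp only [QuadraticAlgebra.im_sub, QuadraticAlgebra.re_mul, QuadraticAlgebra.im_mul,
      QuadraticAlgebra.im_one]
    ring
  rw [two_dvd_iff] at h ⊢
  rw [hre, him]
  have hp : ∀ z : ℤ, (∃ k, z = 2 * k) ∨ ∃ k, z = 2 * k + 1 := fun z => Int.even_or_odd' z |>.elim
    (fun k hk => hk.elim (fun h => Or.inl ⟨k, h⟩) (fun h => Or.inr ⟨k, h⟩))
  rcases hp y.re with ⟨k, hk⟩ | ⟨k, hk⟩ <;> rcases hp y.im with ⟨l, hl⟩ | ⟨l, hl⟩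
  · exact absurd ⟨⟨k, hk⟩, ⟨l, hl⟩⟩ h
  · rw [hk, hl]
    constructor
    · exact ⟨4 * k ^ 3 + 3 * k * (2 * l + 1) ^ 2 + 4 * l ^ 3 + 6 * l ^ 2 + 3 * l, by ring⟩
    · exact ⟨6 * k ^ 2 * (2 * l + 1) + 3 * k * (2 * l + 1) ^ 2 + (2 * l + 1) ^ 3, by ring⟩
  · rw [hk, hl]
    constructor
    · exact ⟨4 * k ^ 3 + 6 * k ^ 2 + 3 * k + 6 * (2 * k + 1) * l ^ 2 + 4 * l ^ 3, by ring⟩
    · exact ⟨3 * (2 * k + 1) ^ 2 * l + 6 * (2 * k + 1) * l ^ 2 + 8 * l ^ 3, by ring⟩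
  · rw [hk, hl]
    constructor
    · exact ⟨4 * k ^ 3 + 6 * k ^ 2 + 3 * k + 12 * k * l ^ 2 + 12 * k * l + 3 * k + 6 * l ^ 2 +
        6 * l + 2 + 4 * l ^ 3 + 6 * l ^ 2 + 3 * l, by ring⟩
    · exact ⟨3 * (2 * k + 1) * (2 * l + 1) * (k + l + 1) + (2 * l + 1) ^ 3, by ring⟩

theorem cls2_of {m P Q R : O} (h2 : Prime (2 : O)) (hm : Cls m) (h : 4 * P * R - Q ^ 2 = m)
    (x y : O) (hxy : (2 : O) ∣ P * x ^ 2 + Q * x * y + R * y ^ 2) : (2 : O) ∣ x ∧ (2 : O) ∣ y := by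
  obtain ⟨ν, c, hν, hno⟩ := hm.two
  -- `Q = ν + 2 j`
  obtain ⟨j, hj⟩ : ∃ j, Q = ν + 2 * j := by
    have h1 : (2 : O) ∣ (Q - ν) * (Q + ν) := ⟨2 * (P * R - c), by linear_combination -h - hν⟩
    rcases h2.dvd_or_dvd h1 with ⟨k, hk⟩ | ⟨k, hk⟩
    · exact ⟨k, by linear_combination hk⟩
    · exact ⟨k - ν, by linear_combination hk⟩
  have h4 : (4 : O) ≠ 0 := by
    have : (4 : O) = 2 * 2 := by norm_num
    rw [this]
    exact mul_ne_zero h2.ne_zero h2.ne_zero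
  have hPR : P * R = c + ν * j + j ^ 2 := by
    have : (4 : O) * (P * R) = 4 * (c + ν * j + j ^ 2) := by
      rw [hj] at h
      linear_combination h + hν
    exact mul_left_cancel₀ h4 this
  have hy : (2 : O) ∣ y := by
    by_contra hy
    obtain ⟨k, hk⟩ := cube_mod_two hy
    obtain ⟨l, hl⟩ := hxy
    apply hno (P * x * y ^ 2 + j)
    -- `X² + ν X + PR ≡ 0`
    have h5 : y ^ 3 = 1 + 2 * k := by linear_combination hk
    have h6 : (P * x * y ^ 2) ^ 2 + Q * (P * x * y ^ 2) * y ^ 3 + P * R * (y ^ 3) ^ 2 =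
        2 * (l * P * y ^ 4) := by linear_combination (P * y ^ 4) * hl
    rw [h5, hPR, hj] at h6
    refine ⟨l * P * y ^ 4 - k * (ν + 2 * j) * (P * x * y ^ 2) -
      (c + ν * j + j ^ 2) * (2 * k + 2 * k ^ 2), ?_⟩
    linear_combination h6
  refine ⟨?_, hy⟩
  obtain ⟨y', rfl⟩ := hy
  have h7 : (2 : O) ∣ P * x ^ 2 := by
    obtain ⟨l, hl⟩ := hxy
    exact ⟨l - Q * x * y' - 2 * R * y' ^ 2, by linear_combination hl⟩
  rcases h2.dvd_or_dvd h7 with ⟨k, hk⟩ | h8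
  · exfalso
    apply hno j
    refine ⟨k * R, ?_⟩
    rw [hk] at hPR
    linear_combination -hPR
  · exact h2.dvd_of_dvd_pow h8

/-! ### the moves -/

/-- the unit `φ`. -/
def uphi : Oˣ := ⟨phi, phi - 1, by
    ext
    · simp [phi, QuadraticAlgebra.re_one, QuadraticAlgebra.im_one]
    · simp [phi, QuadraticAlgebra.re_one, QuadraticAlgebra.im_one], by
    ext
    · simp [phi, QuadraticAlgebra.re_one, QuadraticAlgebra.im_one]
    · simp [phi, QuadraticAlgebra.re_one, QuadraticAlgebra.im_one]⟩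

theorem e1_zpow (j : ℤ) : e1 ((uphi ^ j : Oˣ) : O) = Real.goldenRatio ^ j := by
  have h : ∀ u : Oˣ, e1 (u : O) = ((Units.map (evHom Real.goldenRatio gold_sq : O →* ℝ) u : ℝˣ) : ℝ) :=
    fun u => rfl
  rw [h, map_zpow, Units.val_zpow_eq_zpow_val, ← h]
  congr 1
  exact e1_phi

theorem e2_zpow (j : ℤ) : e2 ((uphi ^ j : Oˣ) : O) = Real.goldenConj ^ j := by
  have h : ∀ u : Oˣ, e2 (u : O) = ((Units.map (evHom Real.goldenConj conj_sq : O →* ℝ) u : ℝˣ) : ℝ) :=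
    fun u => rfl
  rw [h, map_zpow, Units.val_zpow_eq_zpow_val, ← h]
  congr 1
  exact e2_phi

/-- balancing by a unit. -/
theorem balance {x y : ℝ} (hx : 0 < x) (hy : 0 < y) :
    ∃ u w : O, u * w = 1 ∧ 0 < e1 u ^ 2 ∧ 0 < e2 u ^ 2 ∧ Bal (e1 u ^ 2 * x) (e2 u ^ 2 * y) := by
  have hg : 1 < Real.goldenRatio := Real.one_lt_goldenRatio
  have hg0 : 0 < Real.goldenRatio := Real.goldenRatio_pos
  have hg4 : (1 : ℝ) < Real.goldenRatio ^ 4 := one_lt_pow₀ hg (by norm_num)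
  obtain ⟨n, hn1, hn2⟩ := exists_mem_Ico_zpow (x := Real.goldenRatio ^ 2 * (x / y))
    (by positivity) hg4
  have hz4 : ∀ j : ℤ, (Real.goldenRatio ^ 4) ^ j = (Real.goldenRatio ^ j) ^ 4 := by
    intro j
    rw [← zpow_natCast, ← zpow_natCast, ← zpow_mul, ← zpow_mul, mul_comm]
  have hgc : ∀ j : ℤ, (Real.goldenRatio ^ j) ^ 2 * (Real.goldenConj ^ j) ^ 2 = 1 := by
    intro j
    rw [← mul_pow, ← mul_zpow, Real.goldenRatio_mul_goldenConj]
    rcases Int.even_or_odd j with h | h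
    · rw [h.neg_one_zpow]; norm_num
    · rw [h.neg_one_zpow]; norm_num
  refine ⟨((uphi ^ (-n) : Oˣ) : O), ((uphi ^ n : Oˣ) : O), ?_, ?_, ?_, ?_⟩
  · rw [← Units.val_mul, ← zpow_add]
    simp
  · rw [e1_zpow]
    positivity
  · rw [e2_zpow]
    have : Real.goldenConj ≠ 0 := Real.goldenConj_ne_zero
    positivity
  · rw [e1_zpow, e2_zpow]
    have h1 := hgc (-n)
    rw [zpow_add₀ (zero_lt_one.trans hg4).ne', hz4, zpow_one] at hn2
    rw [hz4] at hn1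
    have hr : Real.goldenRatio ^ (-n) * Real.goldenRatio ^ n = 1 := by
      rw [← zpow_add₀ hg0.ne']
      simp
    obtain ⟨A, hA⟩ : ∃ A, A = Real.goldenRatio ^ (-n) := ⟨_, rfl⟩
    obtain ⟨B, hB⟩ : ∃ B, B = Real.goldenRatio ^ n := ⟨_, rfl⟩
    obtain ⟨C, hC⟩ : ∃ C, C = Real.goldenConj ^ (-n) := ⟨_, rfl⟩
    have hA0 : 0 < A := by rw [hA]; positivity
    have hB0 : 0 < B := by rw [hB]; positivity
    rw [← hA, ← hC] at h1
    rw [← hB] at hn1 hn2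
    rw [← hA, ← hB] at hr
    rw [← hA, ← hC]
    have hC2 : C ^ 2 = B ^ 2 := by
      have h3 : A ^ 2 * B ^ 2 = 1 := by rw [← mul_pow, hr]; norm_num
      have h4 : A ^ 2 ≠ 0 := by positivity
      exact mul_left_cancel₀ h4 (h1.trans h3.symm)
    rw [hC2]
    have hy1 : B ^ 4 * y ≤ Real.goldenRatio ^ 2 * x := by
      have := mul_le_mul_of_nonneg_right hn1 hy.le
      rwa [mul_assoc, div_mul_cancel₀ _ hy.ne'] at this
    have hy2 : Real.goldenRatio ^ 2 * x ≤ B ^ 4 * Real.goldenRatio ^ 4 * y := by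
      have := mul_le_mul_of_nonneg_right hn2.le hy.le
      rwa [mul_assoc (Real.goldenRatio ^ 2), div_mul_cancel₀ _ hy.ne'] at this
    have hAB : A ^ 2 * B ^ 4 = B ^ 2 := by
      have : A ^ 2 * B ^ 4 = (A * B) ^ 2 * B ^ 2 := by ring
      rw [this, hr]
      ring
    have hg2 : (0 : ℝ) < Real.goldenRatio ^ 2 := by positivity
    refine ⟨by positivity, by positivity, ?_, ?_⟩
    · -- A² x ≤ g² B² y
      have h5 : Real.goldenRatio ^ 2 * (A ^ 2 * x) ≤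
          Real.goldenRatio ^ 2 * (Real.goldenRatio ^ 2 * (B ^ 2 * y)) := by
        have := mul_le_mul_of_nonneg_left hy2 (by positivity : (0 : ℝ) ≤ A ^ 2)
        have e : A ^ 2 * (B ^ 4 * Real.goldenRatio ^ 4 * y) =
            Real.goldenRatio ^ 2 * (Real.goldenRatio ^ 2 * ((A ^ 2 * B ^ 4) * y)) := by ring
        rw [e, hAB] at this
        linarith
      exact le_of_mul_le_mul_left h5 hg2
    · have := mul_le_mul_of_nonneg_left hy1 (by positivity : (0 : ℝ) ≤ A ^ 2)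
      have e : A ^ 2 * (B ^ 4 * y) = (A ^ 2 * B ^ 4) * y := by ring
      rw [e, hAB] at this
      linarith

/-- QNM. -/
theorem qnm (okr : OkrStmt) : QnmStmt := by
  intro N m hcls hbal hm1 hm2 hN hform
  have h2p : Prime (2 : O) := okr.2.2.1
  obtain ⟨a, b, c, d, ha, hP1, hP2, hsm, hM⟩ := hform
  -- unit
  obtain ⟨u, w, huw, hu1, hu2, hb⟩ := balance hP1 hP2
  have hnu : nm u ^ 2 = 1 := by
    have h1 : nm u * nm w = 1 := by rw [← nm_mul, huw, nm_one]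
    rcases Int.eq_one_or_neg_one_of_mul_eq_one h1 with h | h <;> rw [h] <;> norm_num
  obtain ⟨a1, b1, c1, d1, ha1, hP1', hb1, hnm1, hM1⟩ : ∃ a1 b1 c1 d1 : O, a1 ≠ 0 ∧
      (0 < e1 (fP a1 b1 c1) ∧ 0 < e2 (fP a1 b1 c1)) ∧
      Bal (e1 (fP a1 b1 c1)) (e2 (fP a1 b1 c1)) ∧ nm (fP a1 b1 c1) = nm (fP a b c) ∧
      fM a1 b1 c1 d1 = m := by
    have hP : fP (u ^ 3 * a) (u * b) (w * c) = u ^ 2 * fP a b c := by
      unfold fP
      linear_combination (-u ^ 2 * a * c) * huw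
    refine ⟨u ^ 3 * a, u * b, w * c, w ^ 3 * d, ?_, ?_, ?_, ?_, ?_⟩
    · intro h0
      apply ha
      have : a = w ^ 3 * (u ^ 3 * a) := by
        have : w ^ 3 * (u ^ 3 * a) = (u * w) ^ 3 * a := by ring
        rw [this, huw]
        ring
      rw [this, h0, mul_zero]
    · rw [hP, e1_mul, e2_mul, e1_pow, e2_pow]
      exact ⟨mul_pos hu1 hP1, mul_pos hu2 hP2⟩
    · rw [hP, e1_mul, e2_mul, e1_pow, e2_pow]
      exact hb
    · rw [hP, nm_mul, nm_pow, hnu, one_mul]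
    · rw [← hM]
      have : fM (u ^ 3 * a) (u * b) (w * c) (w ^ 3 * d) =
          4 * ((u * w) ^ 2 * b ^ 2 * c ^ 2 - (u * w) ^ 3 * b ^ 3 * d - (u * w) ^ 3 * a * c ^ 3 +
            (u * w) ^ 4 * a * b * c * d) - ((u * w) * b * c - (u * w) ^ 3 * a * d) ^ 2 := by
        unfold fM fP fQ fR
        ring
      rw [this, huw]
      unfold fM fP fQ fR
      ring
  -- sign
  obtain ⟨a2, b2, c2, d2, ha2, hP2', hM2⟩ : ∃ a2 b2 c2 d2 : O, 0 < e1 a2 ∧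
      fP a2 b2 c2 = fP a1 b1 c1 ∧ fM a2 b2 c2 d2 = m := by
    rcases lt_or_gt_of_ne (e1_ne_zero ha1) with h | h
    · refine ⟨-a1, -b1, -c1, -d1, ?_, ?_, ?_⟩
      · rw [e1_neg]
        linarith
      · unfold fP
        ring
      · rw [← hM1]
        unfold fM fP fQ fR
        ring
    · exact ⟨a1, b1, c1, d1, h, rfl, hM1⟩
  -- sign of `X`
  obtain ⟨b3, c3, d3, hX3, hP3, hM3⟩ : ∃ b3 c3 d3 : O, 0 ≤ e1 (fX a2 b3 c3 d3) ∧
      fP a2 b3 c3 = fP a1 b1 c1 ∧ fM a2 b3 c3 d3 = m := by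
    rcases le_or_gt 0 (e1 (fX a2 b2 c2 d2)) with h | h
    · exact ⟨b2, c2, d2, h, hP2', hM2⟩
    · refine ⟨-b2, c2, -d2, ?_, ?_, ?_⟩
      · have : fX a2 (-b2) c2 (-d2) = -fX a2 b2 c2 d2 := by
          unfold fX
          ring
        rw [this, e1_neg]
        linarith
      · rw [← hP2']
        unfold fP
        ring
      · rw [← hM2]
        unfold fM fP fQ fR
        ring
  -- translation
  have ha2' : a2 ≠ 0 := by
    rintro rfl
    rw [e1_zero] at ha2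
    exact lt_irrefl _ ha2
  have hp : e1 a2 ≠ 0 := ha2.ne'
  have hq : e2 a2 ≠ 0 := e2_ne_zero ha2'
  have hgg : Real.goldenRatio - Real.goldenConj ≠ 0 := by
    rw [Real.goldenRatio_sub_goldenConj]
    positivity
  obtain ⟨s, t, hs, ht⟩ : ∃ s t : ℝ, e1 b3 / e1 a2 = s + t * Real.goldenRatio ∧
      e2 b3 / e2 a2 = s + t * Real.goldenConj := by
    refine ⟨e1 b3 / e1 a2 - (e1 b3 / e1 a2 - e2 b3 / e2 a2) /
      (Real.goldenRatio - Real.goldenConj) * Real.goldenRatio,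
      (e1 b3 / e1 a2 - e2 b3 / e2 a2) / (Real.goldenRatio - Real.goldenConj), by ring, ?_⟩
    have : (e1 b3 / e1 a2 - e2 b3 / e2 a2) / (Real.goldenRatio - Real.goldenConj) *
        (Real.goldenRatio - Real.goldenConj) = e1 b3 / e1 a2 - e2 b3 / e2 a2 :=
      div_mul_cancel₀ _ hgg
    linear_combination this
  let T : O := ⟨-⌊s⌋, -⌊t⌋⟩
  have hT1 : e1 T = -(⌊s⌋ : ℝ) - ⌊t⌋ * Real.goldenRatio := by
    simp only [e1, ev, T]
    push_cast
    ring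
  have hT2 : e2 T = -(⌊s⌋ : ℝ) - ⌊t⌋ * Real.goldenConj := by
    simp only [e2, ev, T]
    push_cast
    ring
  obtain ⟨b4, hb4⟩ : ∃ x, x = b3 + a2 * T := ⟨_, rfl⟩
  obtain ⟨c4, hc4⟩ : ∃ x, x = c3 + 2 * b3 * T + a2 * T ^ 2 := ⟨_, rfl⟩
  obtain ⟨d4, hd4⟩ : ∃ x, x = d3 + 3 * c3 * T + 3 * b3 * T ^ 2 + a2 * T ^ 3 := ⟨_, rfl⟩
  have hP4 : fP a2 b4 c4 = fP a1 b1 c1 := by
    rw [← hP3, hb4, hc4]
    unfold fP
    ring
  have hM4 : fM a2 b4 c4 d4 = m := by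
    rw [← hM3, hb4, hc4, hd4]
    unfold fM fP fQ fR
    ring
  have hX4 : fX a2 b4 c4 d4 = fX a2 b3 c3 d3 := by
    rw [hb4, hc4, hd4]
    unfold fX
    ring
  refine ⟨(a2, b4, c4, d4), ?_, hM4⟩
  constructor
  · exact ha2
  · refine ⟨s - ⌊s⌋, t - ⌊t⌋, ?_, ?_, ?_, ?_, ?_, ?_⟩
    · exact sub_nonneg.2 (Int.floor_le s)
    · have := Int.lt_floor_add_one s
      linarith
    · exact sub_nonneg.2 (Int.floor_le t)
    · have := Int.lt_floor_add_one t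
      linarith
    · change e1 b4 = e1 a2 * _
      rw [div_eq_iff hp] at hs
      rw [hb4, e1_add, e1_mul, hT1]
      linear_combination hs
    · change e2 b4 = e2 a2 * _
      rw [div_eq_iff hq] at ht
      rw [hb4, e2_add, e2_mul, hT2]
      linear_combination ht
  · change 0 ≤ e1 (fX a2 b4 c4 d4)
    rw [hX4]
    exact hX3
  · change 0 < e1 (fP a2 b4 c4)
    rw [hP4]
    exact hP1'.1
  · change 0 < e2 (fP a2 b4 c4)
    rw [hP4]
    exact hP1'.2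
  · change Bal (e1 (fP a2 b4 c4)) (e2 (fP a2 b4 c4))
    rw [hP4]
    exact hb1
  · change 0 < e1 (fM a2 b4 c4 d4)
    rw [hM4]
    exact hm1
  · change 0 < e2 (fM a2 b4 c4 d4)
    rw [hM4]
    exact hm2
  · change Bal (e1 (fM a2 b4 c4 d4)) (e2 (fM a2 b4 c4 d4))
    rw [hM4]
    exact hbal
  · change 4 * nm (fP a2 b4 c4) ^ 2 ≤ nm (fM a2 b4 c4 d4)
    rw [hM4, hP4, hnm1]
    exact hsm
  · change (nm (fM a2 b4 c4 d4) : ℝ) ≤ N
    rw [hM4]
    exact hN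
  · change ∀ x y : O, (2 : O) ∣ fP a2 b4 c4 * x ^ 2 + fQ a2 b4 c4 d4 * x * y +
      fR b4 c4 d4 * y ^ 2 → (2 : O) ∣ x ∧ (2 : O) ∣ y
    intro x y hxy
    exact cls2_of h2p hcls hM4 x y hxy
  · change ∀ x : O, ¬ (3 : O) ∣ fM a2 b4 c4 d4 - x ^ 2
    rw [hM4]
    exact hcls.three

end Pool.Agent.Leo4.H83
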